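import Pool.Agent.H583R2.Expo

set_option autoImplicit false

/-!
# Almost many-one completeness for `E` does not imply almost many-one completeness for `EXP`

Machines are the (multi-stack) Turing machines `Turing.FinTM2` of Mathlib; `Within eb f t` says that
`f` is computed by such a machine within `t n` steps on inputs of length `n`, the value `f x` being
output as the string `eb (f x)`. Languages are the functions `List Bool → Bool`.

* `InE A`: `A` is in `E`, the class of the languages decided in time `2 ^ (c n + c)` for some `c`;
* `InEXP A`: `A` is in `EXP`, time `2 ^ (n ^ c + c)`;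
* `Red B A`: `B` is polynomial-time many-one reducible to `A`;
* `strN n`: the `n`-th string in the length-lexicographic order (the binary expansion of `n + 1`
  without its leading digit `1`); `restrict A n`: the first `n` bits of the characteristic sequence
  of `A` along this order;
* `mart s w`: the martingale `d_s` induced by the betting strategy `s`, with `d_s(λ) = 1` and
  `d_s(w i) = 2 |i - s(w)| d_s(w)` (see `mart_nil`, `mart_snoc`);
* `Strat s t`: the betting strategy `s` has values in the rationals of `[0, 1]` and is computed
  within `t |w|` steps (the output is a fraction, numerator and denominator in binary);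
* `Succeeds s A`: the numbers `d_s(restrict A n)` are unbounded;
* `ZeroE C`, `ZeroEXP C`: the class `C` has measure `0` in `E`, in `EXP`; `OneE`, `OneEXP`: the
  complement of the class has measure `0`.

The theorem: there is a set `A` in `E` which is almost p-m-complete for `E` while its lower p-m-span
does not have measure `1` in `EXP`.
-/

namespace Pool.Agent.Results.MP_7fc3ed_lc.NotAlmostCompleteForEXP

open Turing Computability Pool.Agent.H583R2

/-- `f` is computed by a Turing machine within `t n` steps on inputs of length `n`. -/
def Within {β : Type} (eb : β → List Bool) (f : List Bool → β) (t : ℕ → ℕ) : Prop :=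
  ∃ M : TM2ComputableInTime (id : List Bool → List Bool) eb f, ∀ n, M.time n ≤ t n

/-- `A` is in `E`. -/
def InE (A : List Bool → Bool) : Prop :=
  ∃ c : ℕ, Within (fun b : Bool => [b]) A (fun n => 2 ^ (c * n + c))

/-- `A` is in `EXP`. -/
def InEXP (A : List Bool → Bool) : Prop :=
  ∃ c : ℕ, Within (fun b : Bool => [b]) A (fun n => 2 ^ (n ^ c + c))

/-- `B` is polynomial-time many-one reducible to `A`. -/
def Red (B A : List Bool → Bool) : Prop :=
  ∃ g : List Bool → List Bool, (∃ c : ℕ, Within (id : List Bool → List Bool) g (fun n => n ^ c + c)) ∧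
    ∀ x, B x = A (g x)

/-- The `n`-th string in the length-lexicographic order: the binary expansion of `n + 1` (most
significant digit first) without the leading digit. -/
def strN (n : ℕ) : List Bool := (n + 1).bits.reverse.tail

/-- The first `n` bits of the characteristic sequence of `A`. -/
def restrict (A : List Bool → Bool) (n : ℕ) : List Bool := (List.range n).map (fun j => A (strN j))

/-- The martingale induced by the betting strategy `s`. -/
def mart (s : List Bool → ℚ) (w : List Bool) : ℚ :=
  ∏ i : Fin w.length, 2 * |(if w[i] then 1 else 0) - s (w.take i)|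

/-- The betting strategy `s` has rational values in `[0, 1]` and is computed within `t |w|` steps;
the output is the code of a fraction. -/
def Strat (s : List Bool → ℚ) (t : ℕ → ℕ) : Prop :=
  ∃ F : List Bool → ℕ × ℕ, (∀ w, 0 < (F w).2 ∧ (F w).1 ≤ (F w).2 ∧
    s w = ((F w).1 : ℚ) / ((F w).2 : ℚ)) ∧ Within encPair F t

/-- The martingale of `s` succeeds on `A`. -/
def Succeeds (s : List Bool → ℚ) (A : List Bool → Bool) : Prop :=
  ∀ K : ℚ, ∃ n : ℕ, K < mart s (restrict A n)

/-- The class `C` has measure `0` in `E`. -/
def ZeroE (C : (List Bool → Bool) → Prop) : Prop :=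
  ∃ (c : ℕ) (s : List Bool → ℚ), Strat s (fun n => n ^ c + c) ∧ ∀ A, C A → InE A → Succeeds s A

/-- The class `C` has measure `0` in `EXP`. -/
def ZeroEXP (C : (List Bool → Bool) → Prop) : Prop :=
  ∃ (c : ℕ) (s : List Bool → ℚ), Strat s (fun n => 2 ^ (Nat.log 2 n ^ c + c)) ∧
    ∀ A, C A → InEXP A → Succeeds s A

/-- The class `C` has measure `1` in `E`. -/
def OneE (C : (List Bool → Bool) → Prop) : Prop := ZeroE (fun A => ¬ C A)

/-- The class `C` has measure `1` in `EXP`. -/
def OneEXP (C : (List Bool → Bool) → Prop) : Prop := ZeroEXP (fun A => ¬ C A)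

theorem mart_nil (s : List Bool → ℚ) : mart s [] = 1 := by
  unfold mart
  simp

theorem mart_snoc (s : List Bool → ℚ) (w : List Bool) (b : Bool) :
    mart s (w ++ [b]) = 2 * |(if b then 1 else 0) - s w| * mart s w := by
  unfold mart
  have h : (w ++ [b]).length = w.length + 1 := by simp
  rw [mul_comm, ← Fin.prod_congr' _ h.symm, Fin.prod_univ_castSucc]
  congr 1
  · refine Finset.prod_congr rfl fun i _ => ?_
    have hi : (i : ℕ) < w.length := i.2
    simp only [Fin.getElem_fin, Fin.val_cast, Fin.val_castSucc]
    simp only [List.getElem_append_left hi, List.take_append_of_le_length hi.le]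
  · simp

theorem idxR_bits (m : ℕ) (hm : 1 ≤ m) : idxR m.bits.dropLast + 1 = m := by
  induction m using Nat.binaryRec' with
  | zero => omega
  | bit b n h ih =>
    rcases Nat.eq_zero_or_pos n with h0 | h0
    · subst h0
      have hb : b = true := h rfl
      subst hb
      simp [idxR]
    · have h1 := ih h0
      rw [Nat.bits_append_bit n b h]
      have h2 : n.bits ≠ [] := by
        intro h3
        have : n = 0 := by
          by_contra h4
          have := Nat.size_eq_bits_len n
          rw [h3] at this
          simp at this
          exact h4 (Nat.size_eq_zero.1 this.symm)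
        omega
      rw [List.dropLast_cons_of_ne_nil h2]
      simp only [idxR]
      cases b <;> simp [Nat.bit] <;> omega

theorem strN_eq (n : ℕ) : strN n = str n := by
  apply idx_inj
  rw [idx_str]
  unfold strN idx
  have h := idxR_bits (n + 1) (by omega)
  have e : ((n + 1).bits.reverse.tail).reverse = (n + 1).bits.dropLast := by
    rw [List.tail_reverse, List.reverse_reverse]
  rw [e]
  omega

theorem restrict_eq (A : List Bool → Bool) (n : ℕ) : restrict A n = pre A n := by
  unfold restrict pre
  simp only [strN_eq]

theorem mart_eq (s : List Bool → ℚ) (A : List Bool → Bool) (n : ℕ) :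
    mart s (restrict A n) = capi s A n := by
  rw [restrict_eq]
  induction n with
  | zero =>
    have : pre A 0 = [] := rfl
    rw [this, mart_nil]
    rfl
  | succ n ih =>
    have e : pre A (n + 1) = pre A n ++ [A (str n)] := by
      unfold pre
      rw [List.range_succ, List.map_append]
      rfl
    rw [e, mart_snoc, ih]
    rfl

/-- **There is a set `A` in `E` whose lower p-m-span has measure `1` in `E` but does not have
measure `1` in `EXP`.** -/
theorem result : ∃ A : List Bool → Bool, InE A ∧ OneE (fun B => Red B A) ∧
    ¬ OneEXP (fun B => Red B A) := by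
  refine ⟨AA, ?_, ?_, ?_⟩
  · obtain ⟨c, M, hM⟩ := AA_time
    exact ⟨c, M, hM⟩
  · obtain ⟨c, M, hM⟩ := dF_time
    refine ⟨c, dS, ⟨dF, dS_rep, M, hM⟩, ?_⟩
    intro B hB hE
    obtain ⟨c', M', hM'⟩ := hE
    obtain ⟨e, he⟩ := exists_Bv M' c' hM'
    have hBe : B = Bv e := funext fun y => (he y).symm
    rcases dichotomy e with ⟨s0, hs0⟩ | hwin
    · exfalso
      apply hB
      obtain ⟨g, hg, hg'⟩ := coding hs0
      obtain ⟨c2, M2, hM2⟩ := tm_of_PF hg
      exact ⟨g, ⟨c2, M2, hM2⟩, fun x => by rw [hBe]; exact hg' x⟩
    · intro K
      obtain ⟨L, hL⟩ := hwin K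
      exact ⟨L, by rw [mart_eq, hBe]; exact hL⟩
  · rintro ⟨c, s, ⟨F, hrep, M, hM⟩, hs⟩
    obtain ⟨k, hk⟩ := goodD_of_tm M c hM
    have hbd := capi_bounded (S := s) hk hrep
    obtain ⟨n, hn⟩ := hs (RR F k) (by
      rintro ⟨g, ⟨c2, M2, hM2⟩, hg⟩
      obtain ⟨cd, hcd⟩ := goodG_of_tm M2 c2 hM2
      obtain ⟨x, hx⟩ := requirement hk hcd
      exact hx (hg x)) (by
      obtain ⟨c2, M2, hM2⟩ := RR_time hk
      exact ⟨c2, M2, hM2⟩) 2
    rw [mart_eq] at hn
    exact absurd (hbd n) (not_le.2 hn)

end Pool.Agent.Results.MP_7fc3ed_lc.NotAlmostCompleteForEXP
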